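import Mathlib
import Pool.Agent.Q39.HD.Spec

set_option autoImplicit false

/-!
# MP_5e7226_co: bodies spanned by their parts in two opposite orthants, in any linear frame

Let `v 1, ..., v d` be a basis of `ℝ^d`, and take coordinates with the origin `o` with respect to
this basis. Let `K` be a convex body with the interior point `o`, which is locally anti-blocking in
these coordinates, i.e. it contains with `x` the box spanned by `o` and `x` (all unconditional
bodies and all bodies `A - B` with convex corners `A`, `B` have this property). We prove: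

1. if every point of `K` is on a segment between two points of `K`, one with all coordinates `≥ 0`
   and one with all coordinates `≤ 0`, then `2 ^ d` hyperplanes separate the faces of `K` from `o`,
   and if `2 ^ d - 1` do not suffice then `K` is a cross-body centred at `o` (with the segments
   parallel to the vectors `v i`);
2. if the midpoint of each two points of `K`, one with all coordinates `≥ 0` and one with all
   coordinates `≤ 0`, is an interior point of `K`, then `2 * d.choose (d / 2)` hyperplanes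
   suffice, which is less than `2 ^ d` for `d ≥ 3`.

Consequence: let `A`, `B` be convex corners in `ℝ^d` and `M` a planar convex corner. The whole
assertion of the problem holds for `(K, o)`, where `K` is the union of all `s A - t B`,
`(s, t) ∈ M`, written in the given frame. In particular for `K = o + conv (A ∪ - B)`.
If `M` is not a triangle then `2 * d.choose (d / 2)` hyperplanes suffice, for instance for
`K = o + A - B`.

The proof. By duality one has to cover the polar body `P` by translates of its interior. It is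
locally anti-blocking in the dual frame. In case 1 it contains with `x` and `y` also `x⁺ - y⁻`; in
case 2 it has for each point `x` of `P` one of `x⁺`, `-x⁻` in its interior. For such bodies `P` the
covering numbers have been estimated in `MP_eba1ef_gt/AntiBlockingDifferences`: in case 1 by `2 ^ d`,
and by `2 ^ d - 1` if `P` is not a box; in case 2 by `2 * d.choose (d / 2)`. If `P` is a box, then
`K` is a cross-body by the bipolar theorem.
-/

namespace Pool.Agent.Results.MP_5e7226_co.CornerFrames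

open Set
open scoped InnerProductSpace Pointwise

/-- The Euclidean space `ℝ^d`. -/
abbrev Eu (d : ℕ) : Type := EuclideanSpace ℝ (Fin d)

/-- Some `N` hyperplanes `{x | ⟪w i, x⟫ = b i}` are such that every face of `K` (the set of the
points `x` of `K` at which `⟪u, x⟫` is maximal, `u ≠ 0`) is strictly separated from `o` by one of
them. -/
def SeparatedBy {d : ℕ} (K : Set (Eu d)) (o : Eu d) (N : ℕ) : Prop :=
  ∃ (w : Fin N → Eu d) (b : Fin N → ℝ), ∀ u x₀ : Eu d, u ≠ 0 → x₀ ∈ K →
    (∀ y ∈ K, ⟪u, y⟫_ℝ ≤ ⟪u, x₀⟫_ℝ) →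
      ∃ i, ⟪w i, o⟫_ℝ < b i ∧ ∀ x ∈ K, ⟪u, x⟫_ℝ = ⟪u, x₀⟫_ℝ → b i < ⟪w i, x⟫_ℝ

/-- `K` is the hull of the segments from `o - t i • v i` to `o + s i • v i`, where `s i, t i > 0`:
a cross-body centred at `o`. -/
def CrossBody {d : ℕ} (v : Module.Basis (Fin d) ℝ (Eu d)) (o : Eu d) (K : Set (Eu d)) : Prop :=
  ∃ s t : Fin d → ℝ, (∀ i, 0 < s i) ∧ (∀ i, 0 < t i) ∧
    K = convexHull ℝ (⋃ i, ({o + s i • v i, o - t i • v i} : Set (Eu d)))

/-- The set of the coordinate vectors of the points of `K`, with respect to the origin `o` and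
the basis `v`. -/
def Coord {d : ℕ} (v : Module.Basis (Fin d) ℝ (Eu d)) (o : Eu d) (K : Set (Eu d)) :
    Set (Fin d → ℝ) :=
  {x | o + ∑ i, x i • v i ∈ K}

/-- The set of the points whose coordinate vectors are in `S`. -/
def Place {d : ℕ} (v : Module.Basis (Fin d) ℝ (Eu d)) (o : Eu d) (S : Set (Fin d → ℝ)) :
    Set (Eu d) :=
  {y | ∃ x ∈ S, y = o + ∑ i, x i • v i}

/-- Locally anti-blocking: `C` contains with `x` every point of the box spanned by `0` and `x`. -/
def LocallyAntiBlocking {d : ℕ} (C : Set (Fin d → ℝ)) : Prop :=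
  ∀ x ∈ C, ∀ y : Fin d → ℝ,
    (∀ i, (0 ≤ y i ∧ y i ≤ x i) ∨ (x i ≤ y i ∧ y i ≤ 0)) → y ∈ C

/-- Convex corners (anti-blocking bodies). -/
def ConvexCorner {d : ℕ} (A : Set (Fin d → ℝ)) : Prop :=
  (Convex ℝ A ∧ IsCompact A ∧ (interior A).Nonempty) ∧ (∀ x ∈ A, ∀ i, 0 ≤ x i) ∧
    ∀ x ∈ A, ∀ y : Fin d → ℝ, (∀ i, 0 ≤ y i ∧ y i ≤ x i) → y ∈ A

/-- The union of the bodies `s A - t B` with `(s, t) ∈ M`. -/
def Sum {d : ℕ} (M : Set (Fin 2 → ℝ)) (A B : Set (Fin d → ℝ)) : Set (Fin d → ℝ) :=
  {x | ∃ p ∈ M, ∃ a ∈ A, ∃ b ∈ B, x = p 0 • a - p 1 • b}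

/-- `M` is a triangle with two edges on the axes. -/
def IsTriangle (M : Set (Fin 2 → ℝ)) : Prop :=
  ∃ α β : ℝ, 0 < α ∧ 0 < β ∧ M = {p | 0 ≤ p 0 ∧ 0 ≤ p 1 ∧ p 0 / α + p 1 / β ≤ 1}

/-- `K` is a convex body with the interior point `o`, and the assertion of the problem holds for
`(K, o)`: at most `2 ^ d` hyperplanes are needed, and if `2 ^ d - 1` do not suffice then `K` is a
cross-body centred at `o`. -/
def Assertion {d : ℕ} (v : Module.Basis (Fin d) ℝ (Eu d)) (K : Set (Eu d)) (o : Eu d) : Prop :=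
  Convex ℝ K ∧ IsCompact K ∧ o ∈ interior K ∧ SeparatedBy K o (2 ^ d) ∧
    (¬ SeparatedBy K o (2 ^ d - 1) → CrossBody v o K)

theorem ConvexCorner.corner {d : ℕ} {A : Set (Fin d → ℝ)} (h : ConvexCorner A) :
    Pool.Agent.Q39.HD.Corner A := ⟨h.1.1, h.1.2.1, h.1.2.2, h.2.1, h.2.2⟩

theorem assertion {d : ℕ} (hd : 3 ≤ d) (v : Module.Basis (Fin d) ℝ (Eu d)) (o : Eu d)
    {M : Set (Fin 2 → ℝ)} {A B : Set (Fin d → ℝ)} (hM : Pool.Agent.Q39.HD.Corner M)
    (hA : Pool.Agent.Q39.HD.Corner A) (hB : Pool.Agent.Q39.HD.Corner B) :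
    Assertion v (Place v o (Sum M A B)) o ∧
      (¬ IsTriangle M → SeparatedBy (Place v o (Sum M A B)) o (2 * d.choose (d / 2))) := by
  have h := Pool.Agent.Q39.HD.sum_frame (by omega : 0 < d) v o hM hA hB
  refine ⟨⟨h.1, h.2.1, h.2.2.1, h.2.2.2.1, fun hn => ?_⟩, h.2.2.2.2.2⟩
  by_cases hT : IsTriangle M
  · exact h.2.2.2.2.1 hT hn
  · exact absurd ((show Pool.Agent.Q39.HD.SepBy _ _ _ from h.2.2.2.2.2 hT).mono
      (Nat.mul_pos two_pos (Nat.choose_pos (Nat.div_le_self _ _)))
      (Nat.le_sub_one_of_lt (Pool.Agent.Q39.HD.two_choose_lt hd))) hn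

/-- **Main theorem.** -/
theorem result :
    (∀ d : ℕ, 3 ≤ d → 2 * d.choose (d / 2) < 2 ^ d) ∧
    (∀ d : ℕ, 1 ≤ d → ∀ (v : Module.Basis (Fin d) ℝ (Eu d)) (o : Eu d) (K : Set (Eu d)),
      Convex ℝ K → IsCompact K → o ∈ interior K → LocallyAntiBlocking (Coord v o K) →
        ((∀ x ∈ Coord v o K, ∃ y ∈ Coord v o K, ∃ z ∈ Coord v o K,
            0 ≤ y ∧ z ≤ 0 ∧ x ∈ segment ℝ y z) →
          SeparatedBy K o (2 ^ d) ∧ (¬ SeparatedBy K o (2 ^ d - 1) → CrossBody v o K)) ∧
        ((∀ y ∈ Coord v o K, ∀ z ∈ Coord v o K, 0 ≤ y → z ≤ 0 →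
            (1 / 2 : ℝ) • (y + z) ∈ interior (Coord v o K)) →
          SeparatedBy K o (2 * d.choose (d / 2)))) ∧
    (∀ d : ℕ, 3 ≤ d → ∀ (v : Module.Basis (Fin d) ℝ (Eu d)) (o : Eu d)
      (A B : Set (Fin d → ℝ)), ConvexCorner A → ConvexCorner B →
        Assertion v (Place v o (convexHull ℝ (A ∪ -B))) o ∧
        Assertion v (Place v o (A - B)) o ∧
        SeparatedBy (Place v o (A - B)) o (2 * d.choose (d / 2)) ∧
        ∀ M : Set (Fin 2 → ℝ), ConvexCorner M →
          Assertion v (Place v o (Sum M A B)) o ∧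
          (¬ IsTriangle M →
            SeparatedBy (Place v o (Sum M A B)) o (2 * d.choose (d / 2)))) := by
  refine ⟨fun d hd => Pool.Agent.Q39.HD.two_choose_lt hd, ?_, ?_⟩
  · intro d hd v o K hK hKc ho hL
    exact ⟨fun hJ => Pool.Agent.Q39.HD.joined_main hd v hK hKc ho hL hJ,
      fun hB => Pool.Agent.Q39.HD.bulging_main v hKc ho hL hB⟩
  · intro d hd v o A B hA hB
    have hs := assertion hd v o Pool.Agent.Q39.HD.square_corner hA.corner hB.corner
    have ht := assertion hd v o Pool.Agent.Q39.HD.tri_corner hA.corner hB.corner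
    have e1 : Sum (Set.Icc 0 1) A B = A - B :=
      Pool.Agent.Q39.HD.msum_square hA.corner hB.corner
    have e2 : Sum Pool.Agent.Q39.HD.tri A B = convexHull ℝ (A ∪ -B) :=
      Pool.Agent.Q39.HD.msum_tri hA.corner hB.corner
    rw [e1] at hs
    rw [e2] at ht
    refine ⟨ht.1, hs.1, hs.2 ?_, fun M hM => assertion hd v o hM.corner hA.corner hB.corner⟩
    exact Pool.Agent.Q39.HD.square_not_tri

end Pool.Agent.Results.MP_5e7226_co.CornerFrames
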