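import Mathlib
import Pool.Agent.Q156.Lie.Sep

set_option autoImplicit false

/-!
# MP_5e7226_co: bodies with irreducible symmetries, rotation invariant bodies of tensors

Let `s(K, o)` be the least number of hyperplanes which separate all faces of the convex body `K`
strictly from its interior point `o`; it is conjectured that `s(K, o) ≤ 2^d`.

**Part 1.** Let `K` be a convex body in a Euclidean space `E` of dimension `d ≥ 2`, `o` an interior
point, `K - o ⊆ -a (K - o)` (`a = 1` if `K` is symmetric about `o`). Suppose that `K` is invariant,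
about `o`, under the one-parameter groups of a Lie algebra of skew-symmetric operators which acts
irreducibly on `E`; the Lie algebra need not be semisimple and no bound for its Killing form is
required. Let `X_i` be an orthonormal basis of the Lie algebra for some invariant inner product,
`q = -(1/d) ∑ tr X_i²` the Casimir eigenvalue, `κ` the largest norm of an operator `∑ b_i X_i` with
`∑ b_i² = 1`, and `t = q / (480 κ² (1 + a)²)`. Then
`s(K, o) ≤ 1 + 13 d log(2d²+2d+1) 2^d e^(-t)`, and `s(K, o) < 2^d` if `t ≥ 5 + 2 log d`.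

**Part 2.** Let `K` be a convex body of real `n_1 × ... × n_r` tensors, `o` an interior point, and
suppose that `K` is invariant, about `o`, under the rotations `SO(n_j)` of each index `j`, where
some `n_j` is at least three; no symmetry about `o` is assumed. Let `d = ∏ n_j` be the dimension and
`m` the mean of the numbers `n_j`. Then the same bounds hold with `t = (m - 1) / 7680`, and with
`t = (m - 1) / 1920` if `K` is symmetric about `o`. So `s(K, o) < 2^d`, `d = n^r`, for all these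
bodies of tensors of order `r` over `ℝ^n` when `n - 1 ≥ 7680 (5 + 2 r log n)`: the order of the
tensors may be proportional to `n / log n`, the dimension is then exponential in `n`. Examples are
the unit balls of the injective and of the projective tensor norm of `ℝ^n ⊗ ... ⊗ ℝ^n`.

The theorems `CompactLieSymmetries` and `AsymmetricLieSymmetries` of the starting files have
semisimple algebras and a lower bound of the Killing form in the place of the Casimir eigenvalue
(the Killing form depends on the algebra only, while the Casimir eigenvalue grows with the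
representation), and representations of one group `SO(n)` of degree `k` with the parameter
`(n - 2) / (960 k² (1 + a)²)`.

Proof. The polar body of `K` with respect to `o` has the same symmetries and the same asymmetry, and
a covering of it by translates of its interior gives the normal vectors of the hyperplanes. The
covering is the one of `MP_eba1ef_gt.CasimirSymmetries`.
-/

namespace Pool.Agent.Results.MP_5e7226_co.IrreducibleSymmetries

open scoped InnerProductSpace
open Module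

/-- `K` and `o` are separated by `H`: every face of `K` (the set of the points of `K` at which a
functional `⟪u, ·⟫`, `u ≠ 0`, is maximal on `K`) is strictly separated from `o` by one of the
hyperplanes `{x | ⟪h.1, x⟫ = h.2}` with `h ∈ H`. -/
def SeparatesFaces {E : Type*} [NormedAddCommGroup E] [InnerProductSpace ℝ E] (K : Set E) (o : E)
    (H : Finset (E × ℝ)) : Prop :=
  (∀ h ∈ H, h.1 ≠ 0) ∧
    ∀ u x₀ : E, u ≠ 0 → x₀ ∈ K → (∀ y ∈ K, ⟪u, y⟫_ℝ ≤ ⟪u, x₀⟫_ℝ) →
      ∃ h ∈ H, ⟪h.1, o⟫_ℝ < h.2 ∧ ∀ x ∈ K, ⟪u, x⟫_ℝ = ⟪u, x₀⟫_ℝ → h.2 < ⟪h.1, x⟫_ℝ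

/-- The bounds of the theorem, in terms of the parameter `t`: at most
`1 + 13 d log(2d²+2d+1) 2^d e^(-t)` hyperplanes suffice, and less than `2^d` if
`t ≥ 5 + 2 log d`, where `d` is the dimension. -/
def FewHyperplanes {E : Type*} [NormedAddCommGroup E] [InnerProductSpace ℝ E] (K : Set E) (o : E)
    (t : ℝ) : Prop :=
  ∃ H : Finset (E × ℝ), SeparatesFaces K o H ∧
    (H.card : ℝ) ≤ 1 + 13 * finrank ℝ E * Real.log (2 * finrank ℝ E ^ 2 + 2 * finrank ℝ E + 1)
      * 2 ^ finrank ℝ E * Real.exp (-t) ∧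
    (5 + 2 * Real.log (finrank ℝ E) ≤ t → H.card < 2 ^ finrank ℝ E)

/-- `K` is a convex body with interior point `o`. -/
def IsBody {E : Type*} [NormedAddCommGroup E] [InnerProductSpace ℝ E] (K : Set E) (o : E) : Prop :=
  Convex ℝ K ∧ IsCompact K ∧ o ∈ interior K

/-- `K - o ⊆ -a (K - o)`. -/
def Asymmetry {E : Type*} [NormedAddCommGroup E] [InnerProductSpace ℝ E] (K : Set E) (o : E)
    (a : ℝ) : Prop :=
  0 < a ∧ ∀ x ∈ K, o - a⁻¹ • (x - o) ∈ K

/-- The real `n_1 × ... × n_r` tensors. -/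
abbrev Tensor {r : ℕ} (n : Fin r → ℕ) := EuclideanSpace ℝ ((j : Fin r) → Fin (n j))

/-- The tensor `x` multiplied by the matrix `U` in the index `j`. -/
noncomputable def rotate {r : ℕ} {n : Fin r → ℕ} (j : Fin r)
    (U : Matrix (Fin (n j)) (Fin (n j)) ℝ) (x : Tensor n) : Tensor n :=
  WithLp.toLp 2 fun p => ∑ i, U (p j) i * x (Function.update p j i)

/-- `K` is invariant, about `o`, under the rotations of each index. -/
def RotationInvariant {r : ℕ} {n : Fin r → ℕ} (K : Set (Tensor n)) (o : Tensor n) : Prop :=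
  ∀ (j : Fin r) (U : Matrix.specialOrthogonalGroup (Fin (n j)) ℝ), ∀ x ∈ K,
    o + rotate j (U : Matrix (Fin (n j)) (Fin (n j)) ℝ) (x - o) ∈ K

/-- The operators `X i` are skew-symmetric, and an orthonormal basis (with respect to an invariant
inner product; the structure constants are `c`) of a Lie algebra which acts irreducibly and not
trivially; `κ` bounds the norms of the operators `∑ b_i X_i` with `∑ b_i² ≤ 1`. -/
def IsIrreducible {E : Type*} [NormedAddCommGroup E] [InnerProductSpace ℝ E] {ι : Type}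
    [Fintype ι] (X : ι → E →L[ℝ] E) (c : ι → ι → ι → ℝ) (κ : ℝ) : Prop :=
  (∀ i x y, ⟪X i x, y⟫_ℝ = -⟪x, X i y⟫_ℝ) ∧
  (∀ i j x, X i (X j x) - X j (X i x) = ∑ k, c i j k • X k x) ∧
  (∀ i j k, c i j k = -c k j i) ∧
  (∀ S : Submodule ℝ E, (∀ i, ∀ x ∈ S, X i x ∈ S) → S = ⊥ ∨ S = ⊤) ∧
  (∃ i, X i ≠ 0) ∧
  (∀ b : ι → ℝ, ∑ i, b i ^ 2 ≤ 1 → ∀ x, ‖∑ i, b i • X i x‖ ≤ κ * ‖x‖)

/-- The Casimir eigenvalue `-(1/d) ∑ tr X_i²`. -/
noncomputable def casimirValue {E : Type*} [NormedAddCommGroup E] [InnerProductSpace ℝ E]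
    {ι : Type} [Fintype ι] (X : ι → E →L[ℝ] E) : ℝ :=
  -(∑ i, LinearMap.trace ℝ E ((X i : E →ₗ[ℝ] E) ∘ₗ (X i : E →ₗ[ℝ] E))) / finrank ℝ E

theorem FewHyperplanes.mono {E : Type*} [NormedAddCommGroup E] [InnerProductSpace ℝ E] {K : Set E}
    {o : E} {s s' : ℝ} (h : FewHyperplanes K o s) (hs : s' ≤ s) : FewHyperplanes K o s' := by
  obtain ⟨T, h1, h2, h3⟩ := h
  refine ⟨T, h1, h2.trans ?_, fun h => h3 (h.trans hs)⟩
  have hlog : 0 ≤ Real.log (2 * (finrank ℝ E : ℝ) ^ 2 + 2 * finrank ℝ E + 1) := by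
    apply Real.log_nonneg
    have : (0 : ℝ) ≤ finrank ℝ E := Nat.cast_nonneg _
    nlinarith
  gcongr

theorem irreducible (E : Type) [NormedAddCommGroup E] [InnerProductSpace ℝ E] [FiniteDimensional ℝ E]
    (K : Set E) (o : E) (a : ℝ) (hd : 2 ≤ finrank ℝ E) (hK : IsBody K o) (hKa : Asymmetry K o a)
    (ι : Type) [Fintype ι] (X : ι → E →L[ℝ] E) (c : ι → ι → ι → ℝ) (κ : ℝ) (hκ : 0 < κ)
    (hX : IsIrreducible X c κ)
    (hinv : ∀ b : ι → ℝ, ∀ x ∈ K, o + NormedSpace.exp (∑ i, b i • X i) (x - o) ∈ K) :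
    FewHyperplanes K o (casimirValue X / (480 * κ ^ 2 * (1 + a) ^ 2)) := by
  obtain ⟨hX, hc, hanti, hirr, hne, hn⟩ := hX
  obtain ⟨-, hKc, ho⟩ := hK
  obtain ⟨q, hq, hcas, hqv⟩ := Q217.TN.casimir_scalar X hX c hc hanti hd hirr hne
  obtain ⟨H, h1, h2⟩ := Q156.Lie.sep_scalar X hX q hq hcas κ hκ hn hd K o a hKc ho hKa.1 hKa.2 hinv
  have e : casimirValue X = q := hqv.symm
  rw [e]
  exact ⟨H, h1, h2, fun hs => Y368.Lie.strict _ hd _ _ h2 hs⟩

theorem tensors (r : ℕ) (n : Fin r → ℕ) (hn : ∀ j, 1 ≤ n j) (h3 : ∃ j, 3 ≤ n j)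
    (K : Set (Tensor n)) (o : Tensor n) (hK : IsBody K o) (hinv : RotationInvariant K o) :
    (∀ a : ℝ, Asymmetry K o a →
      FewHyperplanes K o ((∑ j, ((n j : ℝ) - 1)) / (480 * r * (1 + a) ^ 2))) ∧
    FewHyperplanes K o ((∑ j, ((n j : ℝ) - 1)) / (7680 * r)) ∧
    ((∀ x ∈ K, o - (x - o) ∈ K) →
      FewHyperplanes K o ((∑ j, ((n j : ℝ) - 1)) / (1920 * r))) := by
  have hd := Q217.TN.two_le_finrank hn h3
  have hr : (0 : ℝ) < r := by
    obtain ⟨t, -⟩ := h3
    exact_mod_cast t.pos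
  have hsum : 0 ≤ ∑ j, ((n j : ℝ) - 1) := Finset.sum_nonneg fun j _ => by
    have : (1 : ℝ) ≤ n j := by exact_mod_cast hn j
    linarith
  obtain ⟨hKv, hKc, ho⟩ := hK
  -- the body moved to the origin
  set K0 : Set (Tensor n) := {x | o + x ∈ K} with hK0
  have hK0i : ∀ (j : Fin r) (U : Matrix.specialOrthogonalGroup (Fin (n j)) ℝ), ∀ x ∈ K0,
      Q217.TN.act j (U : Matrix (Fin (n j)) (Fin (n j)) ℝ) x ∈ K0 := by
    intro j U x hx
    have h := hinv j U (o + x) hx
    rwa [add_sub_cancel_left] at h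
  have hK0v : Convex ℝ K0 := by
    intro x hx y hy s t hs ht hst
    have h := hKv hx hy hs ht hst
    have e : s • (o + x) + t • (o + y) = o + (s • x + t • y) := by
      rw [smul_add, smul_add, add_add_add_comm, ← add_smul, hst, one_smul]
    rw [e] at h
    exact h
  have hexp : ∀ b : ((t : Fin r) × (Fin (n t) × Fin (n t))) → ℝ, ∀ x ∈ K,
      o + NormedSpace.exp (∑ i, b i • Q217.TN.XT n i) (x - o) ∈ K := by
    intro b x hx
    have h := Q217.TN.XT_inv K0 hK0i b (x - o) (by
      show o + (x - o) ∈ K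
      rwa [add_sub_cancel])
    exact h
  have hq : 0 < ∑ j, 2 * ((n j : ℝ) - 1) := by
    obtain ⟨t0, ht0⟩ := h3
    refine Finset.sum_pos' (fun t _ => ?_) ⟨t0, Finset.mem_univ t0, ?_⟩
    · have : (1 : ℝ) ≤ n t := by exact_mod_cast hn t
      linarith
    · have : (3 : ℝ) ≤ n t0 := by exact_mod_cast ht0
      linarith
  have key : ∀ a : ℝ, Asymmetry K o a →
      FewHyperplanes K o ((∑ j, ((n j : ℝ) - 1)) / (480 * r * (1 + a) ^ 2)) := by
    rintro a ⟨ha, hKa⟩
    obtain ⟨H, h1, h2⟩ := Q156.Lie.sep_scalar (Q217.TN.XT n) Q217.TN.XT_skew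
      (∑ j, 2 * ((n j : ℝ) - 1)) hq Q217.TN.XT_casimir (√2 * √(Fintype.card (Fin r)))
      (by rw [Fintype.card_fin]; positivity) Q217.TN.XT_norm hd K o a hKc ho ha hKa hexp
    have e : (∑ t, 2 * ((n t : ℝ) - 1)) / (480 * (√2 * √(Fintype.card (Fin r))) ^ 2 * (1 + a) ^ 2)
        = (∑ t, ((n t : ℝ) - 1)) / (480 * r * (1 + a) ^ 2) := by
      rw [mul_pow, Real.sq_sqrt (by norm_num), Real.sq_sqrt (by positivity), Fintype.card_fin,
        ← Finset.mul_sum]
      field_simp
    rw [e] at h2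
    exact ⟨H, h1, h2, fun hs => Y368.Lie.strict _ hd _ _ h2 hs⟩
  refine ⟨key, ?_, ?_⟩
  · obtain ⟨t, ht⟩ := h3
    have ht' : (3 : ℝ) ≤ n t := by exact_mod_cast ht
    have h5 : 0 < (n t : ℝ) / (n t - 2) := div_pos (by linarith) (by linarith)
    refine (key ((n t : ℝ) / (n t - 2)) ⟨h5, fun x hx => ?_⟩).mono ?_
    · have h := Q217.TN.almost_symm_act t ht K0 hK0v (hK0i t) (x - o) (by
        show o + (x - o) ∈ K
        rwa [add_sub_cancel])
      have h' : o + -(((n t : ℝ) / (n t - 2))⁻¹ • (x - o)) ∈ K := h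
      rwa [← sub_eq_add_neg] at h'
    · have h4 : (n t : ℝ) / (n t - 2) ≤ 3 := by
        rw [div_le_iff₀ (by linarith)]
        linarith
      apply div_le_div_of_nonneg_left hsum (by positivity)
      calc 480 * (r : ℝ) * (1 + (n t : ℝ) / (n t - 2)) ^ 2
          ≤ 480 * (r : ℝ) * (1 + 3) ^ 2 := by gcongr
        _ = 7680 * (r : ℝ) := by ring
  · intro hs
    have h := key 1 ⟨one_pos, fun x hx => by rw [inv_one, one_smul]; exact hs x hx⟩
    refine h.mono (le_of_eq ?_)
    congr 1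
    ring

/-- **Theorem.** Separation of the faces of the convex bodies with irreducible symmetries (Part 1)
and of the rotation invariant convex bodies of tensors (Part 2) from an interior point. -/
theorem result :
    -- Part 1
    (∀ (E : Type) [NormedAddCommGroup E] [InnerProductSpace ℝ E] [FiniteDimensional ℝ E]
      (K : Set E) (o : E) (a : ℝ), 2 ≤ finrank ℝ E → IsBody K o → Asymmetry K o a →
      ∀ (ι : Type) [Fintype ι] (X : ι → E →L[ℝ] E) (c : ι → ι → ι → ℝ) (κ : ℝ), 0 < κ →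
      IsIrreducible X c κ →
      (∀ b : ι → ℝ, ∀ x ∈ K, o + NormedSpace.exp (∑ i, b i • X i) (x - o) ∈ K) →
      FewHyperplanes K o (casimirValue X / (480 * κ ^ 2 * (1 + a) ^ 2))) ∧
    -- Part 2
    (∀ (r : ℕ) (n : Fin r → ℕ), (∀ j, 1 ≤ n j) → (∃ j, 3 ≤ n j) → ∀ (K : Set (Tensor n))
      (o : Tensor n), IsBody K o → RotationInvariant K o →
      FewHyperplanes K o ((∑ j, ((n j : ℝ) - 1)) / (7680 * r)) ∧
      ((∀ x ∈ K, o - (x - o) ∈ K) →
        FewHyperplanes K o ((∑ j, ((n j : ℝ) - 1)) / (1920 * r)))) ∧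
    -- tensors of order `r` over `ℝ^n`
    (∀ r n : ℕ, 1 ≤ r → 7680 * (5 + 2 * r * Real.log n) ≤ (n : ℝ) - 1 →
      ∀ (K : Set (Tensor fun _ : Fin r => n)) (o : Tensor fun _ : Fin r => n), IsBody K o →
      RotationInvariant K o → ∃ H : Finset ((Tensor fun _ : Fin r => n) × ℝ),
        SeparatesFaces K o H ∧ H.card < 2 ^ (n ^ r)) := by
  refine ⟨fun E _ _ _ K o a hd hK hKa ι _ X c κ hκ hX hinv =>
    irreducible E K o a hd hK hKa ι X c κ hκ hX hinv,
    fun r n hn h3 K o hK hinv => (tensors r n hn h3 K o hK hinv).2, ?_⟩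
  intro r n hr hn K o hK hinv
  have hr' : (1 : ℝ) ≤ r := by exact_mod_cast hr
  have hr0 : (0 : ℝ) < r := by linarith
  have hlog : 0 ≤ Real.log n := Real.log_natCast_nonneg n
  have hn3 : 3 ≤ n := by
    have h1 : 0 ≤ 2 * (r : ℝ) * Real.log n := by positivity
    have : (3 : ℝ) ≤ n := by linarith
    exact_mod_cast this
  obtain ⟨-, ⟨H, h1, -, h3⟩, -⟩ := tensors r (fun _ => n) (fun _ => by omega) ⟨⟨0, hr⟩, hn3⟩ K o hK
    hinv
  have hfr : finrank ℝ (Tensor fun _ : Fin r => n) = n ^ r := by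
    have := Q217.TN.finrank_ten (fun _ : Fin r => n)
    rw [this]
    simp
  rw [hfr] at h3
  refine ⟨H, h1, h3 ?_⟩
  have e1 : (∑ _t : Fin r, ((n : ℝ) - 1)) / (7680 * r) = (n - 1) / 7680 := by
    rw [Finset.sum_const, Finset.card_univ, Fintype.card_fin, nsmul_eq_mul]
    field_simp
  rw [e1, le_div_iff₀ (by norm_num)]
  push_cast
  rw [Real.log_pow]
  linarith

end Pool.Agent.Results.MP_5e7226_co.IrreducibleSymmetries
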