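import Mathlib
import Pool.Agent.TH154.Alcoved

set_option autoImplicit false

/-!
# MP_5e7226_co: the polytopes spanned by the weighted differences of the vertices of a simplex

Let `p_0, ..., p_n` be affinely independent points of `ℝ^n` and `c(i, j) > 0` (`i ≠ j`) real
numbers. The polytope `K = conv {(p_i - p_j) / c(i, j) : i ≠ j}` is the fundamental polytope
(Kantorovich-Rubinstein polytope, Lipschitz polytope) of the quasi-metric `c`; for `c = 1` it is
(an affine image of) the root polytope of type `A_n`. Its polar body with respect to `0` is an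
alcoved polytope.

1. If `c(i, j) < c(i, k) + c(k, j)` for all distinct `i, j, k`, then the faces of `K` can be
   separated from `0` by `C(n + 1, ⌊(n + 1) / 2⌋)` hyperplanes, which is less than `2 ^ n` for
   `n ≥ 2`.
2. More generally let the points be ordered such that the strict triangle inequality holds among
   the first `s` points, and no later point is (metrically) between two points preceding it. Then
   `C(s, ⌊s / 2⌋) 2 ^ (n + 1 - s)` hyperplanes suffice; this is at most `2 ^ n`, and at most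
   `3 * 2 ^ (n - 2)` if `s ≥ 3`.
3. If `c(i, j) = a_i + b_j` with `a_i, b_j > 0` (in particular for the root polytope), then the
   least number of hyperplanes is exactly `C(n + 1, ⌊(n + 1) / 2⌋)`.
-/

namespace Pool.Agent.Results.MP_5e7226_co.RootPolytopes

open Finset
open scoped InnerProductSpace

/-- The Euclidean space `ℝ^d`. -/
abbrev Eu (d : ℕ) : Type := EuclideanSpace ℝ (Fin d)

/-- Some `N` hyperplanes `{x | ⟪w i, x⟫ = b i}` are such that every face of `K` (the set of the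
points `x` of `K` at which `⟪u, x⟫` is maximal, `u ≠ 0`) is strictly separated from `o` by one of
them. -/
def SeparatedBy {d : ℕ} (K : Set (Eu d)) (o : Eu d) (N : ℕ) : Prop :=
  ∃ (w : Fin N → Eu d) (b : Fin N → ℝ), ∀ u x₀ : Eu d, u ≠ 0 → x₀ ∈ K →
    (∀ y ∈ K, ⟪u, y⟫_ℝ ≤ ⟪u, x₀⟫_ℝ) →
      ∃ i, ⟪w i, o⟫_ℝ < b i ∧ ∀ x ∈ K, ⟪u, x⟫_ℝ = ⟪u, x₀⟫_ℝ → b i < ⟪w i, x⟫_ℝ

/-- The polytope spanned by the points `(p i - p j) / c i j`, `i ≠ j`. -/
def poly {n : ℕ} (p : Fin (n + 1) → Eu n) (c : Fin (n + 1) → Fin (n + 1) → ℝ) : Set (Eu n) :=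
  convexHull ℝ {x | ∃ i j, i ≠ j ∧ x = (c i j)⁻¹ • (p i - p j)}

/-- The least number of hyperplanes is `N`. -/
def LeastNumber {d : ℕ} (K : Set (Eu d)) (o : Eu d) (N : ℕ) : Prop :=
  ∀ M, SeparatedBy K o M ↔ N ≤ M

/-- `(σ, s)` is an admissible order: the strict triangle inequality holds among the first `s`
points, and no later point is between two points preceding it. -/
def AdmissibleOrder {n : ℕ} (c : Fin (n + 1) → Fin (n + 1) → ℝ) (σ : Equiv.Perm (Fin (n + 1)))
    (s : ℕ) : Prop :=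
  s ≤ n + 1 ∧
  (∀ i j k, i ≠ j → i ≠ k → j ≠ k → (σ i : ℕ) < s → (σ j : ℕ) < s → (σ k : ℕ) < s →
      c i j < c i k + c k j) ∧
  (∀ i j k, i ≠ j → σ i < σ k → σ j < σ k → s ≤ (σ k : ℕ) → c i j < c i k + c k j)

/-! ### Vectors with prescribed products -/

theorem exists_vec {n : ℕ} {p : Fin (n + 1) → Eu n} (hp : AffineIndependent ℝ p)
    (F : Fin (n + 1) → ℝ) : ∃ w : Eu n, ∀ i j, ⟪w, p i - p j⟫_ℝ = F i - F j := by
  have hli : LinearIndependent ℝ (fun k : Fin n => p k.succ - p 0) := by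
    have h := (affineIndependent_iff_linearIndependent_vsub ℝ p 0).1 hp
    have h2 := h.comp (fun k : Fin n => (⟨k.succ, Fin.succ_ne_zero k⟩ : {x : Fin (n + 1) // x ≠ 0}))
      (fun a b hab => Fin.succ_injective n (Subtype.ext_iff.1 hab))
    exact h2
  have hcard : Fintype.card (Fin n) = Module.finrank ℝ (Eu n) := by simp
  rcases Nat.eq_zero_or_pos n with rfl | hn
  · refine ⟨0, fun i j => ?_⟩
    have : i = j := Fin.ext (by omega)
    subst this
    simp
  have : Nonempty (Fin n) := ⟨⟨0, hn⟩⟩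
  let B := basisOfLinearIndependentOfCardEqFinrank hli hcard
  have hB : ∀ k, B k = p k.succ - p 0 := fun k => by
    simp [B]
  let φ : Eu n →ₗ[ℝ] ℝ := B.constr ℝ (fun k => F k.succ - F 0)
  have hφ : ∀ k : Fin n, φ (p k.succ - p 0) = F k.succ - F 0 := fun k => by
    rw [← hB k]
    simp only [φ]
    rw [Module.Basis.constr_basis]
  let w : Eu n := (InnerProductSpace.toDual ℝ (Eu n)).symm (LinearMap.toContinuousLinearMap φ)
  have hw : ∀ x, ⟪w, x⟫_ℝ = φ x := fun x => by
    simp [w, InnerProductSpace.toDual_symm_apply]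
  have h0 : ∀ i, ⟪w, p i - p 0⟫_ℝ = F i - F 0 := by
    intro i
    refine Fin.cases ?_ (fun k => ?_) i
    · simp
    · rw [hw, hφ]
  refine ⟨w, fun i j => ?_⟩
  have e : p i - p j = (p i - p 0) - (p j - p 0) := by abel
  rw [e, inner_sub_right, h0, h0]
  ring

theorem gen_mem {n : ℕ} (p : Fin (n + 1) → Eu n) (c : Fin (n + 1) → Fin (n + 1) → ℝ)
    {i j : Fin (n + 1)} (hij : i ≠ j) : (c i j)⁻¹ • (p i - p j) ∈ poly p c :=
  subset_convexHull ℝ _ ⟨i, j, hij, rfl⟩

theorem finite_gens {n : ℕ} (p : Fin (n + 1) → Eu n) (c : Fin (n + 1) → Fin (n + 1) → ℝ) :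
    {x : Eu n | ∃ i j, i ≠ j ∧ x = (c i j)⁻¹ • (p i - p j)}.Finite := by
  refine (Set.finite_range (fun q : Fin (n + 1) × Fin (n + 1) =>
    (c q.1 q.2)⁻¹ • (p q.1 - p q.2))).subset ?_
  rintro x ⟨i, j, -, rfl⟩
  exact ⟨(i, j), rfl⟩

theorem isCompact_poly {n : ℕ} (p : Fin (n + 1) → Eu n) (c : Fin (n + 1) → Fin (n + 1) → ℝ) :
    IsCompact (poly p c) :=
  (finite_gens p c).isCompact_convexHull ℝ

theorem le_of_gens {n : ℕ} {p : Fin (n + 1) → Eu n} {c : Fin (n + 1) → Fin (n + 1) → ℝ}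
    {v : Eu n} {h : ℝ} (hg : ∀ i j, i ≠ j → h < ⟪v, (c i j)⁻¹ • (p i - p j)⟫_ℝ) :
    ∀ x ∈ poly p c, h < ⟪v, x⟫_ℝ := by
  have hconv : Convex ℝ {x : Eu n | h < ⟪v, x⟫_ℝ} := by
    intro x hx y hy a b ha hb hab
    simp only [Set.mem_ofPred_eq] at hx hy ⊢
    rw [inner_add_right, real_inner_smul_right, real_inner_smul_right]
    rcases eq_or_lt_of_le ha with rfl | ha'
    · have : b = 1 := by linarith
      subst this
      simpa using hy
    · have h1 : a * h < a * ⟪v, x⟫_ℝ := by gcongr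
      have h2 : b * h ≤ b * ⟪v, y⟫_ℝ := by gcongr
      have h3 : a * h + b * h = h := by rw [← add_mul, hab, one_mul]
      linarith
  intro x hx
  refine (convexHull_min ?_ hconv) hx
  rintro y ⟨i, j, hij, rfl⟩
  exact hg i j hij

theorem le_of_gens' {n : ℕ} {p : Fin (n + 1) → Eu n} {c : Fin (n + 1) → Fin (n + 1) → ℝ}
    {v : Eu n} {h : ℝ} (hg : ∀ i j, i ≠ j → ⟪v, (c i j)⁻¹ • (p i - p j)⟫_ℝ ≤ h) :
    ∀ x ∈ poly p c, ⟪v, x⟫_ℝ ≤ h := by
  have hconv : Convex ℝ {x : Eu n | ⟪v, x⟫_ℝ ≤ h} := by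
    intro x hx y hy a b ha hb hab
    simp only [Set.mem_ofPred_eq] at hx hy ⊢
    rw [inner_add_right, real_inner_smul_right, real_inner_smul_right]
    have h1 : a * ⟪v, x⟫_ℝ ≤ a * h := by gcongr
    have h2 : b * ⟪v, y⟫_ℝ ≤ b * h := by gcongr
    have h3 : a * h + b * h = h := by rw [← add_mul, hab, one_mul]
    linarith
  intro x hx
  refine (convexHull_min ?_ hconv) hx
  rintro y ⟨i, j, hij, rfl⟩
  exact hg i j hij

/-- A point of the face in direction `u` lies on the positive side, if all generators in the face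
do. -/
theorem face_side {n : ℕ} {p : Fin (n + 1) → Eu n} {c : Fin (n + 1) → Fin (n + 1) → ℝ}
    (u w : Eu n) (h b : ℝ) (hle : ∀ i j, i ≠ j → ⟪u, (c i j)⁻¹ • (p i - p j)⟫_ℝ ≤ h)
    (hb : ∀ i j, i ≠ j → ⟪u, (c i j)⁻¹ • (p i - p j)⟫_ℝ = h →
      b < ⟪w, (c i j)⁻¹ • (p i - p j)⟫_ℝ) :
    ∀ x ∈ poly p c, ⟪u, x⟫_ℝ = h → b < ⟪w, x⟫_ℝ := by
  classical
  let g : Fin (n + 1) × Fin (n + 1) → Eu n := fun q => (c q.1 q.2)⁻¹ • (p q.1 - p q.2)
  let M : ℝ := ∑ q, |b - ⟪w, g q⟫_ℝ| / |h - ⟪u, g q⟫_ℝ| + 1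
  have hM : ∀ q, |b - ⟪w, g q⟫_ℝ| / |h - ⟪u, g q⟫_ℝ| + 1 ≤ M := by
    intro q
    have := single_le_sum (f := fun q => |b - ⟪w, g q⟫_ℝ| / |h - ⟪u, g q⟫_ℝ|)
      (fun q _ => by positivity) (mem_univ q)
    simp only [M]
    linarith
  have key : ∀ x ∈ poly p c, b - M * h < ⟪w - M • u, x⟫_ℝ := by
    refine le_of_gens fun i j hij => ?_
    rw [inner_sub_left, real_inner_smul_left]
    rcases eq_or_lt_of_le (hle i j hij) with he | hlt
    · rw [he]
      have := hb i j hij he
      linarith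
    · have h1 := hM (i, j)
      have hpos : 0 < h - ⟪u, g (i, j)⟫_ℝ := by
        simp only [g]
        linarith
      rw [abs_of_pos hpos] at h1
      have h2 : (|b - ⟪w, g (i, j)⟫_ℝ| / (h - ⟪u, g (i, j)⟫_ℝ) + 1) * (h - ⟪u, g (i, j)⟫_ℝ) ≤
          M * (h - ⟪u, g (i, j)⟫_ℝ) := by gcongr
      rw [add_mul, div_mul_cancel₀ _ hpos.ne', one_mul] at h2
      have h3 := le_abs_self (b - ⟪w, g (i, j)⟫_ℝ)
      simp only [g] at h2 h3 hpos
      nlinarith
  intro x hx hux
  have := key x hx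
  rw [inner_sub_left, real_inner_smul_left, hux] at this
  linarith

/-- From a finite set of hyperplanes to a family. -/
theorem separatedBy_of_finset {d : ℕ} {K : Set (Eu d)} {o : Eu d} {N : ℕ}
    (H : Finset (Eu d × ℝ)) (hH : H.card ≤ N)
    (h : ∀ u x₀ : Eu d, u ≠ 0 → x₀ ∈ K → (∀ y ∈ K, ⟪u, y⟫_ℝ ≤ ⟪u, x₀⟫_ℝ) →
      ∃ q ∈ H, ⟪q.1, o⟫_ℝ < q.2 ∧ ∀ x ∈ K, ⟪u, x⟫_ℝ = ⟪u, x₀⟫_ℝ → q.2 < ⟪q.1, x⟫_ℝ) :
    SeparatedBy K o N := by
  classical
  let e := H.equivFin
  let f : Fin N → Eu d × ℝ := fun i => if hi : (i : ℕ) < H.card then (e.symm ⟨i, hi⟩ : Eu d × ℝ)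
    else 0
  refine ⟨fun i => (f i).1, fun i => (f i).2, fun u x₀ hu hx₀ hmax => ?_⟩
  obtain ⟨q, hq, h1, h2⟩ := h u x₀ hu hx₀ hmax
  have hi : ((e ⟨q, hq⟩ : Fin H.card) : ℕ) < H.card := (e ⟨q, hq⟩).is_lt
  refine ⟨⟨e ⟨q, hq⟩, hi.trans_le hH⟩, ?_⟩
  have hf : f ⟨e ⟨q, hq⟩, hi.trans_le hH⟩ = q := by
    simp only [f, dif_pos hi]
    simp
  simp only [hf]
  exact ⟨h1, h2⟩

theorem SeparatedBy.mono {d : ℕ} {K : Set (Eu d)} {o : Eu d} {N M : ℕ} (h : SeparatedBy K o N)
    (hNM : N ≤ M) : SeparatedBy K o M := by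
  obtain ⟨w, b, hwb⟩ := h
  refine ⟨fun i => if hi : (i : ℕ) < N then w ⟨i, hi⟩ else 0,
    fun i => if hi : (i : ℕ) < N then b ⟨i, hi⟩ else 0, fun u x₀ hu hx₀ hmax => ?_⟩
  obtain ⟨i, h1, h2⟩ := hwb u x₀ hu hx₀ hmax
  refine ⟨⟨i, i.is_lt.trans_le hNM⟩, ?_⟩
  simp only [dif_pos i.is_lt]
  exact ⟨h1, h2⟩

theorem exists_gap {ι : Type*} [Fintype ι] (a : ι → ℝ) : ∃ b : ℝ, 0 < b ∧ ∀ i, 0 < a i → b < a i := by
  classical
  have h : ∀ s : Finset ι, ∃ b : ℝ, 0 < b ∧ ∀ i ∈ s, 0 < a i → b < a i := by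
    intro s
    induction s using Finset.induction_on with
    | empty => exact ⟨1, one_pos, by simp⟩
    | insert i s _ ih =>
      obtain ⟨b, hb, h⟩ := ih
      by_cases hi : 0 < a i
      · refine ⟨min b (a i / 2), lt_min hb (by positivity), fun j hj haj => ?_⟩
        rcases Finset.mem_insert.1 hj with rfl | hj
        · exact (min_le_right _ _).trans_lt (by linarith)
        · exact (min_le_left _ _).trans_lt (h j hj haj)
      · refine ⟨b, hb, fun j hj haj => ?_⟩
        rcases Finset.mem_insert.1 hj with rfl | hj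
        · exact absurd haj hi
        · exact h j hj haj
  obtain ⟨b, hb, h⟩ := h univ
  exact ⟨b, hb, fun i => h i (mem_univ i)⟩

/-- Vectors orthogonal to all differences vanish. -/
theorem exists_pos {n : ℕ} {p : Fin (n + 1) → Eu n} (hp : AffineIndependent ℝ p) {u : Eu n}
    (hu : u ≠ 0) : ∃ i j, i ≠ j ∧ 0 < ⟪u, p i - p j⟫_ℝ := by
  by_contra hcon
  push Not at hcon
  have h0 : ∀ i j, ⟪u, p i - p j⟫_ℝ = 0 := by
    intro i j
    by_cases hij : i = j
    · subst hij; simp
    · have h1 := hcon i j hij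
      have h2 := hcon j i (Ne.symm hij)
      have e : p j - p i = -(p i - p j) := by abel
      rw [e, inner_neg_right] at h2
      linarith
  have hspan : affineSpan ℝ (Set.range p) = ⊤ := by
    rw [hp.affineSpan_eq_top_iff_card_eq_finrank_add_one]
    simp
  have hv : vectorSpan ℝ (Set.range p) = ⊤ := by
    rw [← direction_affineSpan, hspan, AffineSubspace.direction_top]
  have hu' : u ∈ vectorSpan ℝ (Set.range p) := by rw [hv]; trivial
  have horth : ∀ v ∈ vectorSpan ℝ (Set.range p), ⟪u, v⟫_ℝ = 0 := by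
    intro v hv
    rw [vectorSpan_def] at hv
    induction hv using Submodule.span_induction with
    | mem x hx =>
      obtain ⟨_, ⟨i, rfl⟩, _, ⟨j, rfl⟩, rfl⟩ := hx
      exact h0 i j
    | zero => simp
    | add x y _ _ hx hy => rw [inner_add_right, hx, hy, add_zero]
    | smul a x _ hx => rw [real_inner_smul_right, hx, mul_zero]
  exact hu (inner_self_eq_zero.1 (horth u hu'))

/-! ### The upper bound -/

theorem upper {n : ℕ} {p : Fin (n + 1) → Eu n} (hp : AffineIndependent ℝ p)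
    {c : Fin (n + 1) → Fin (n + 1) → ℝ} (hc : ∀ i j, i ≠ j → 0 < c i j)
    {σ : Equiv.Perm (Fin (n + 1))} {s : ℕ} (h : AdmissibleOrder c σ s) :
    SeparatedBy (poly p c) 0 (s.choose (s / 2) * 2 ^ (n + 1 - s)) := by
  classical
  obtain ⟨hs, hstr, helim⟩ := h
  -- put zeros on the diagonal
  let c' : Fin (n + 1) → Fin (n + 1) → ℝ := fun i j => if i = j then 0 else c i j
  have hc' : ∀ i j, i ≠ j → c' i j = c i j := fun i j hij => by simp [c', hij]
  obtain ⟨D, hD, hDf⟩ := Pool.Agent.TH154.Alc.all_dirs c' s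
    (fun i j hij => by
      rw [hc' i j hij, hc' j i hij.symm]
      exact add_pos (hc i j hij) (hc j i hij.symm)) (fun i => (σ i : ℕ))
    (fun i j h => σ.injective (Fin.ext h))
    (fun i j k hij hik hjk h1 h2 h3 => by
      rw [hc' i j hij, hc' i k hik, hc' k j hjk.symm]
      exact hstr i j k hij hik hjk h1 h2 h3)
    (fun i j k hij h1 h2 h3 => by
      have hik : i ≠ k := fun e => by subst e; exact lt_irrefl _ h1
      have hjk : j ≠ k := fun e => by subst e; exact lt_irrefl _ h2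
      rw [hc' i j hij, hc' i k hik, hc' k j hjk.symm]
      exact helim i j k hij h1 h2 h3) (n + 1 - s)
  -- the hyperplanes
  choose W hW using fun d : Fin (n + 1) → ℝ => exists_vec hp (fun i => -d i)
  choose B hB0 hB using fun d : Fin (n + 1) → ℝ =>
    exists_gap (fun q : Fin (n + 1) × Fin (n + 1) => ⟪W d, (c q.1 q.2)⁻¹ • (p q.1 - p q.2)⟫_ℝ)
  refine separatedBy_of_finset (D.image fun d => (W d, B d)) (card_image_le.trans hD) ?_
  intro u x₀ hu hx₀ hmax
  set H : ℝ := ⟪u, x₀⟫_ℝ with hH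
  have hHpos : 0 < H := by
    obtain ⟨i, j, hij, hpos⟩ := exists_pos hp hu
    refine lt_of_lt_of_le ?_ (hmax _ (gen_mem p c hij))
    rw [real_inner_smul_right]
    exact mul_pos (inv_pos.2 (hc i j hij)) hpos
  obtain ⟨d, hd, hg⟩ := hDf (fun i => ⟪u, p i⟫_ℝ / H) (by
    intro i j
    by_cases hij : i = j
    · subst hij
      simp [c']
    · rw [hc' i j hij]
      have h1 := hmax _ (gen_mem p c hij)
      rw [real_inner_smul_right, inner_sub_right, inv_mul_le_iff₀ (hc i j hij)] at h1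
      rw [← sub_div, div_le_iff₀ hHpos]
      linarith)
  refine ⟨(W d, B d), mem_image_of_mem _ hd, ?_, ?_⟩
  · simpa using hB0 d
  · refine face_side u (W d) H (B d) (fun i j hij => hmax _ (gen_mem p c hij)) ?_
    intro i j hij hu1
    have htight : ⟪u, p i⟫_ℝ / H - ⟪u, p j⟫_ℝ / H = c' i j := by
      rw [hc' i j hij, ← sub_div, ← inner_sub_right, div_eq_iff hHpos.ne']
      rw [real_inner_smul_right, inv_mul_eq_iff_eq_mul₀ (hc i j hij).ne'] at hu1
      linarith
    have hlt : d i < d j := by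
      refine hg i j hij ?_ ?_ htight
      · show (σ i : ℕ) < s + (n + 1 - s)
        have := (σ i).is_lt
        omega
      · show (σ j : ℕ) < s + (n + 1 - s)
        have := (σ j).is_lt
        omega
    refine hB d (i, j) ?_
    show 0 < ⟪W d, (c i j)⁻¹ • (p i - p j)⟫_ℝ
    rw [real_inner_smul_right, hW]
    exact mul_pos (inv_pos.2 (hc i j hij)) (by linarith)

/-! ### The lower bound -/

theorem lower {n : ℕ} (hn : 1 ≤ n) {p : Fin (n + 1) → Eu n} (hp : AffineIndependent ℝ p)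
    {a b : Fin (n + 1) → ℝ} (ha : ∀ i, 0 < a i) (hb : ∀ i, 0 < b i) {N : ℕ}
    (h : SeparatedBy (poly p (fun i j => a i + b j)) 0 N) :
    (n + 1).choose ((n + 1) / 2) ≤ N := by
  classical
  obtain ⟨w, β, hsep⟩ := h
  set m := (n + 1) / 2 with hm
  have hab : ∀ i j, 0 < a i + b j := fun i j => add_pos (ha i) (hb j)
  -- the hyperplane of a set
  have key : ∀ S : Finset (Fin (n + 1)), S.card = m → ∃ t : Fin N,
      ∀ i ∈ S, ∀ j ∉ S, 0 < ⟪w t, p i - p j⟫_ℝ := by
    intro S hS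
    obtain ⟨i₀, hi₀⟩ : S.Nonempty := by
      rw [← card_pos]
      omega
    obtain ⟨j₀, hj₀⟩ : ∃ j, j ∉ S := by
      by_contra hcon
      push Not at hcon
      have : S = univ := eq_univ_iff_forall.2 hcon
      rw [this, card_univ, Fintype.card_fin] at hS
      omega
    have hij₀ : i₀ ≠ j₀ := fun e => hj₀ (e ▸ hi₀)
    obtain ⟨u, hu⟩ := exists_vec hp (fun i => if i ∈ S then a i else -b i)
    have hval : ∀ i ∈ S, ∀ j ∉ S, ⟪u, (a i + b j)⁻¹ • (p i - p j)⟫_ℝ = 1 := by
      intro i hi j hj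
      rw [real_inner_smul_right, hu, if_pos hi, if_neg hj, sub_neg_eq_add,
        inv_mul_cancel₀ (hab i j).ne']
    have hle : ∀ i j, i ≠ j → ⟪u, (a i + b j)⁻¹ • (p i - p j)⟫_ℝ ≤ 1 := by
      intro i j _
      rw [real_inner_smul_right, hu, inv_mul_le_iff₀ (hab i j), mul_one]
      have h1 := ha i
      have h2 := hb i
      have h3 := ha j
      have h4 := hb j
      split_ifs <;> linarith
    have hu0 : u ≠ 0 := by
      rintro rfl
      have := hval i₀ hi₀ j₀ hj₀
      rw [inner_zero_left] at this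
      exact zero_ne_one this
    obtain ⟨t, ht0, ht⟩ := hsep u _ hu0 (gen_mem p (fun i j => a i + b j) hij₀) (by
      intro y hy
      rw [hval i₀ hi₀ j₀ hj₀]
      exact le_of_gens' hle y hy)
    rw [inner_zero_right] at ht0
    refine ⟨t, fun i hi j hj => ?_⟩
    have hij : i ≠ j := fun e => hj (e ▸ hi)
    have h1 := ht _ (gen_mem p (fun i j => a i + b j) hij)
      ((hval i hi j hj).trans (hval i₀ hi₀ j₀ hj₀).symm)
    rw [real_inner_smul_right] at h1
    have h2 : 0 < (a i + b j)⁻¹ * ⟪w t, p i - p j⟫_ℝ := ht0.trans h1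
    exact (pos_iff_pos_of_mul_pos h2).1 (inv_pos.2 (hab i j))
  obtain ⟨S₀, -, hS₀⟩ := exists_subset_card_eq (s := (univ : Finset (Fin (n + 1)))) (n := m) (by
    rw [card_univ, Fintype.card_fin]
    omega)
  have : Nonempty (Fin N) := ⟨(key S₀ hS₀).choose⟩
  choose! T hT using key
  have hinj : Set.InjOn T (powersetCard m (univ : Finset (Fin (n + 1)))) := by
    intro S hS S' hS' hSS'
    rw [mem_coe, mem_powersetCard] at hS hS'
    by_contra hne
    obtain ⟨i, hi, hi'⟩ : ∃ i ∈ S, i ∉ S' := by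
      by_contra hcon
      push Not at hcon
      exact hne (eq_of_subset_of_card_le hcon (by rw [hS.2, hS'.2]))
    obtain ⟨j, hj', hj⟩ : ∃ j ∈ S', j ∉ S := by
      by_contra hcon
      push Not at hcon
      exact hne (eq_of_subset_of_card_le hcon (by rw [hS.2, hS'.2])).symm
    have h1 := hT S hS.2 i hi j hj
    have h2 := hT S' hS'.2 j hj' i hi'
    rw [hSS'] at h1
    have e : p j - p i = -(p i - p j) := by abel
    rw [e, inner_neg_right] at h2
    linarith
  have := card_le_card_of_injOn T (fun S _ => mem_coe.2 (mem_univ (T S))) hinj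
  rw [card_powersetCard, card_univ, card_univ, Fintype.card_fin, Fintype.card_fin] at this
  exact this

/-! ### The origin is an interior point -/

theorem zero_mem_interior {n : ℕ} (hn : 1 ≤ n) {p : Fin (n + 1) → Eu n}
    (hp : AffineIndependent ℝ p)
    {c : Fin (n + 1) → Fin (n + 1) → ℝ} (hc : ∀ i j, i ≠ j → 0 < c i j) :
    (0 : Eu n) ∈ interior (poly p c) := by
  classical
  have hconv : Convex ℝ (poly p c) := convex_convexHull ℝ _
  have hn1 : (0 : ℝ) < n + 1 := by positivity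
  -- the origin
  have h0 : (0 : Eu n) ∈ poly p c := by
    have h01 : (0 : Fin (n + 1)) ≠ Fin.last n := by
      intro e
      have := congrArg Fin.val e
      simp at this
      omega
    have hA := hc _ _ h01
    have hB := hc _ _ h01.symm
    have hAB : 0 < c 0 (Fin.last n) + c (Fin.last n) 0 := add_pos hA hB
    have h := hconv (gen_mem p c h01) (gen_mem p c h01.symm)
      (a := c 0 (Fin.last n) / (c 0 (Fin.last n) + c (Fin.last n) 0))
      (b := c (Fin.last n) 0 / (c 0 (Fin.last n) + c (Fin.last n) 0))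
      (by positivity) (by positivity) (by rw [← add_div, div_self hAB.ne'])
    have e : (c 0 (Fin.last n) / (c 0 (Fin.last n) + c (Fin.last n) 0)) •
        ((c 0 (Fin.last n))⁻¹ • (p 0 - p (Fin.last n))) +
        (c (Fin.last n) 0 / (c 0 (Fin.last n) + c (Fin.last n) 0)) •
        ((c (Fin.last n) 0)⁻¹ • (p (Fin.last n) - p 0)) = 0 := by
      rw [smul_smul, smul_smul]
      have e1 : c 0 (Fin.last n) / (c 0 (Fin.last n) + c (Fin.last n) 0) * (c 0 (Fin.last n))⁻¹ =
          (c 0 (Fin.last n) + c (Fin.last n) 0)⁻¹ := by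
        field_simp
      have e2 : c (Fin.last n) 0 / (c 0 (Fin.last n) + c (Fin.last n) 0) * (c (Fin.last n) 0)⁻¹ =
          (c 0 (Fin.last n) + c (Fin.last n) 0)⁻¹ := by
        field_simp
      rw [e1, e2, ← smul_add]
      simp
    rwa [e] at h
  -- the centroid
  set g : Eu n := (n + 1 : ℝ)⁻¹ • ∑ j, p j with hg
  let L : Fin (n + 1) → ℝ := fun i => ∑ j ∈ univ.erase i, c i j
  have hL : ∀ i, 0 < L i := by
    intro i
    refine sum_pos (fun j hj => hc i j (ne_of_mem_erase hj).symm) ?_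
    rw [← card_pos, card_erase_of_mem (mem_univ i), card_univ, Fintype.card_fin]
    omega
  have hq : ∀ i, ((n + 1 : ℝ) / L i) • (p i - g) ∈ poly p c := by
    intro i
    have h := hconv.sum_mem (t := univ.erase i) (w := fun j => c i j / L i)
      (z := fun j => (c i j)⁻¹ • (p i - p j))
      (fun j hj => (div_pos (hc i j (ne_of_mem_erase hj).symm) (hL i)).le)
      (by rw [← sum_div]; exact div_self (hL i).ne')
      (fun j hj => gen_mem p c (ne_of_mem_erase hj).symm)
    have e : ∑ j ∈ univ.erase i, (c i j / L i) • ((c i j)⁻¹ • (p i - p j)) =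
        ((n + 1 : ℝ) / L i) • (p i - g) := by
      have e1 : ∀ j ∈ univ.erase i, (c i j / L i) • ((c i j)⁻¹ • (p i - p j)) =
          (L i)⁻¹ • (p i - p j) := by
        intro j hj
        rw [smul_smul]
        have := (hc i j (ne_of_mem_erase hj).symm).ne'
        have e2 : c i j / L i * (c i j)⁻¹ = (L i)⁻¹ := by
          have := (hL i).ne'
          field_simp
        rw [e2]
      rw [sum_congr rfl e1, ← smul_sum, sum_erase _ (by simp), sum_sub_distrib, sum_const,
        card_univ, Fintype.card_fin, ← Nat.cast_smul_eq_nsmul ℝ, hg, smul_sub, smul_sub,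
        smul_smul, smul_smul, div_eq_inv_mul, mul_assoc, mul_inv_cancel₀ hn1.ne', mul_one]
      push_cast
      rfl
    rwa [e] at h
  let M : ℝ := ∑ i, L i
  have hM : ∀ i, L i ≤ M := fun i => single_le_sum (fun i _ => (hL i).le) (mem_univ i)
  have hM0 : 0 < M := (hL 0).trans_le (hM 0)
  let q : Fin (n + 1) → Eu n := fun i => ((n + 1 : ℝ) / M) • (p i - g)
  have hqK : ∀ i, q i ∈ poly p c := by
    intro i
    have h := hconv.smul_mem_of_zero_mem h0 (hq i) (t := L i / M)
      ⟨div_nonneg (hL i).le hM0.le, (div_le_one hM0).2 (hM i)⟩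
    rw [smul_smul] at h
    have e : L i / M * ((n + 1 : ℝ) / L i) = (n + 1 : ℝ) / M := by
      have := (hL i).ne'
      field_simp
    rwa [e] at h
  have hk : (0 : ℝ) < (n + 1 : ℝ) / M := by positivity
  have hqi : AffineIndependent ℝ q := by
    rw [affineIndependent_iff_linearIndependent_vsub ℝ q 0]
    have h := (affineIndependent_iff_linearIndependent_vsub ℝ p 0).1 hp
    have h2 := h.units_smul (fun _ => Units.mk0 _ hk.ne')
    have e : (fun i : {x : Fin (n + 1) // x ≠ 0} => (q i -ᵥ q 0 : Eu n)) =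
        (fun _ : {x : Fin (n + 1) // x ≠ 0} => Units.mk0 ((n + 1 : ℝ) / M) hk.ne') •
          (fun i : {x : Fin (n + 1) // x ≠ 0} => (p i -ᵥ p 0 : Eu n)) := by
      funext i
      simp only [q, vsub_eq_sub, Pi.smul_apply', Units.smul_mk0, ← smul_sub]
      congr 1
      abel
    rw [e]
    exact h2
  have hspan : affineSpan ℝ (Set.range q) = ⊤ := by
    rw [hqi.affineSpan_eq_top_iff_card_eq_finrank_add_one]
    simp
  let b : AffineBasis (Fin (n + 1)) ℝ (Eu n) := ⟨q, hqi, hspan⟩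
  have hcen := b.centroid_mem_interior_convexHull
  have hsum : univ.centroid ℝ b = (0 : Eu n) := by
    have hbq : ∀ i, b i = q i := fun i => rfl
    rw [Finset.centroid_def, Finset.affineCombination_eq_linear_combination _ _ _
      (Finset.sum_centroidWeights_eq_one_of_nonempty ℝ _ univ_nonempty)]
    simp only [Finset.centroidWeights_apply, hbq, q, ← smul_sum, sum_sub_distrib, sum_const,
      card_univ, Fintype.card_fin]
    have e2 : ∑ x, p x - (n + 1) • g = 0 := by
      rw [← Nat.cast_smul_eq_nsmul ℝ, hg, smul_smul]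
      push_cast
      rw [mul_inv_cancel₀ hn1.ne', one_smul, sub_self]
    rw [e2, smul_zero, smul_zero]
  rw [hsum] at hcen
  refine interior_mono ?_ hcen
  refine convexHull_min ?_ hconv
  rintro _ ⟨i, rfl⟩
  exact hqK i

/-! ### Binomial coefficients -/

theorem choose_le : ∀ s : ℕ, 3 ≤ s → s.choose (s / 2) ≤ 3 * 2 ^ (s - 3) := by
  intro s hs
  induction s, hs using Nat.le_induction with
  | base => decide
  | succ s hs ih =>
    have h1 : (s + 1).choose ((s + 1) / 2) ≤ 2 * s.choose (s / 2) := by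
      obtain ⟨k, hk⟩ : ∃ k, (s + 1) / 2 = k + 1 := ⟨(s + 1) / 2 - 1, by omega⟩
      rw [hk, Nat.choose_succ_succ']
      have := Nat.choose_le_middle k s
      have := Nat.choose_le_middle (k + 1) s
      omega
    have h2 : 3 * 2 ^ (s + 1 - 3) = 2 * (3 * 2 ^ (s - 3)) := by
      rw [show s + 1 - 3 = (s - 3) + 1 by omega, pow_succ]
      ring
    omega

theorem result :
    ∀ n : ℕ, 2 ≤ n → ∀ p : Fin (n + 1) → Eu n, AffineIndependent ℝ p →
      -- the polytopes are convex bodies with `0` in the interior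
      (∀ c : Fin (n + 1) → Fin (n + 1) → ℝ, (∀ i j, i ≠ j → 0 < c i j) →
        Convex ℝ (poly p c) ∧ IsCompact (poly p c) ∧ (0 : Eu n) ∈ interior (poly p c) ∧
        -- the strict triangle inequality
        ((∀ i j k, i ≠ j → i ≠ k → j ≠ k → c i j < c i k + c k j) →
          SeparatedBy (poly p c) 0 ((n + 1).choose ((n + 1) / 2))) ∧
        -- the general bound
        (∀ (σ : Equiv.Perm (Fin (n + 1))) (s : ℕ), AdmissibleOrder c σ s →
          SeparatedBy (poly p c) 0 (s.choose (s / 2) * 2 ^ (n + 1 - s)) ∧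
          (1 ≤ s → SeparatedBy (poly p c) 0 (2 ^ n)) ∧
          (3 ≤ s → SeparatedBy (poly p c) 0 (3 * 2 ^ (n - 2))))) ∧
      -- the exact value
      (∀ a b : Fin (n + 1) → ℝ, (∀ i, 0 < a i) → (∀ i, 0 < b i) →
        LeastNumber (poly p fun i j => a i + b j) 0 ((n + 1).choose ((n + 1) / 2))) ∧
      (n + 1).choose ((n + 1) / 2) < 2 ^ n := by
  intro n hn p hp
  have hlt : (n + 1).choose ((n + 1) / 2) < 2 ^ n := by
    refine (choose_le (n + 1) (by omega)).trans_lt ?_
    obtain ⟨m, rfl⟩ : ∃ m, n = m + 2 := ⟨n - 2, by omega⟩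
    rw [show m + 2 + 1 - 3 = m by omega, pow_add]
    have : 0 < 2 ^ m := by positivity
    omega
  have hfull : ∀ c : Fin (n + 1) → Fin (n + 1) → ℝ, (∀ i j, i ≠ j → 0 < c i j) →
      (∀ i j k, i ≠ j → i ≠ k → j ≠ k → c i j < c i k + c k j) →
      SeparatedBy (poly p c) 0 ((n + 1).choose ((n + 1) / 2)) := by
    intro c hc h
    have := upper hp hc (σ := Equiv.refl _) (s := n + 1)
      ⟨le_rfl, fun i j k hij hik hjk _ _ _ => h i j k hij hik hjk,
        fun i j k _ _ _ hk => absurd k.is_lt (by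
          have : n + 1 ≤ (k : ℕ) := hk
          omega)⟩
    simpa using this
  refine ⟨fun c hc => ⟨convex_convexHull ℝ _, isCompact_poly p c,
    zero_mem_interior (by omega) hp hc, hfull c hc, fun σ s h => ⟨upper hp hc h, fun hs => ?_,
      fun hs => ?_⟩⟩, fun a b ha hb M => ⟨fun h => lower (by omega) hp ha hb h, fun hM => ?_⟩, hlt⟩
  · refine (upper hp hc h).mono ?_
    have hsn := h.1
    have h1 : s.choose (s / 2) ≤ 2 ^ (s - 1) := by
      rcases Nat.lt_or_ge s 3 with h3 | h3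
      · interval_cases s <;> decide
      · refine (choose_le s h3).trans ?_
        obtain ⟨m, rfl⟩ : ∃ m, s = m + 3 := ⟨s - 3, by omega⟩
        rw [show m + 3 - 3 = m by omega, show m + 3 - 1 = m + 2 by omega, pow_add]
        have : 0 < 2 ^ m := by positivity
        omega
    calc s.choose (s / 2) * 2 ^ (n + 1 - s) ≤ 2 ^ (s - 1) * 2 ^ (n + 1 - s) :=
          Nat.mul_le_mul_right _ h1
      _ = 2 ^ n := by rw [← pow_add]; congr 1; omega
  · refine (upper hp hc h).mono ?_
    have hsn := h.1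
    calc s.choose (s / 2) * 2 ^ (n + 1 - s) ≤ 3 * 2 ^ (s - 3) * 2 ^ (n + 1 - s) :=
          Nat.mul_le_mul_right _ (choose_le s hs)
      _ = 3 * 2 ^ (n - 2) := by rw [mul_assoc, ← pow_add]; congr 2; omega
  · refine SeparatedBy.mono (hfull _ (fun i j _ => add_pos (ha i) (hb j)) ?_) hM
    intro i j k _ _ _
    have := ha k
    have := hb k
    linarith

end Pool.Agent.Results.MP_5e7226_co.RootPolytopes
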