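import Mathlib
import Pool.Agent.Q156.Lie.FormSep

set_option autoImplicit false

/-!
# MP_5e7226_co: rotation invariant bodies of alternating forms

Let `K` be a convex body in the space of the alternating `k`-forms on `ℝ^n`, `1 ≤ k < n`, of
dimension `d = C(n, k)`, `o` an interior point of `K`, and suppose that `K` is invariant, about `o`,
under the rotations of `ℝ^n`: if `f ∈ K` then `o + U*(f - o) ∈ K` for every `U ∈ SO(n)`, where `U*`
is the pullback. Then the faces of `K` can be separated strictly from `o` by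
`1 + 13 d log(2d²+2d+1) 2^d e^(-t)` hyperplanes, `t = (n - k) / 3840`, if `K` is symmetric about `o`,
and by less than `2^d` hyperplanes if `t ≥ 5 + 2 log d`. If `K - o ⊆ -a (K - o)` then this holds with
`t = (n - k) / (960 (1 + a)²)`; for odd `k ≤ n / 4` it holds with `t = (n - k) / 8640` without any
assumption about the symmetry of `K`.

So `s(K, o) < 2^d` for all these bodies if `300000 k ≤ n`, and `K` is symmetric about `o` or `k` is
odd: for forms of a degree proportional to `n`, the dimension `d` being exponential in `n`. An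
example is the unit ball of the comass norm (the norm of the space of continuous alternating maps).

The theorem `AsymmetricLieSymmetries` of the starting files gives the bounds with
`(n - 2) / (960 k² (1 + a)²)` in the place of `t` (representations of `SO(n)` of degree `k`), so the
inequality `s(K, o) < 2^d` for `k` up to `c (n / log n)^(1/3)`.

Proof. The polar body with respect to `o` (for the inner product of the forms) has the same
symmetries. The Casimir operator of `so(n)` is the scalar `2 k (n - k)` on the alternating tensors,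
and the infinitesimal rotation `D` of the forms induced by a skew-symmetric operator `A` satisfies
`‖D x‖² ≤ k ‖A‖_HS² ‖x‖²` (Pauli's exclusion principle), see `MP_eba1ef_gt.AlternatingForms`. The
polar body is covered by translates of its interior; they give the hyperplanes.
-/

namespace Pool.Agent.Results.MP_5e7226_co.RotationInvariantForms

open Module

/-- The alternating `k`-forms on the Euclidean space `ℝ^n`. -/
abbrev Form (k n : ℕ) := EuclideanSpace ℝ (Fin n) [⋀^Fin k]→L[ℝ] ℝ

/-- The pullback of a form by the linear map with the matrix `U`: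
`(v_1, ..., v_k) ↦ f (U v_1, ..., U v_k)`. -/
noncomputable def pullback {k n : ℕ} (U : Matrix (Fin n) (Fin n) ℝ) (f : Form k n) : Form k n :=
  f.compContinuousLinearMap (Matrix.toEuclideanCLM (𝕜 := ℝ) (n := Fin n) U)

/-- `K` is invariant, about `o`, under the rotations of `ℝ^n`. -/
def RotationInvariant {k n : ℕ} (K : Set (Form k n)) (o : Form k n) : Prop :=
  ∀ U ∈ Matrix.specialOrthogonalGroup (Fin n) ℝ, ∀ f ∈ K, o + pullback U (f - o) ∈ K

/-- `K` and `o` are separated by `H`: every face of `K` (the set of the points of `K` at which a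
linear functional `u ≠ 0` is maximal on `K`) is strictly separated from `o` by one of the
hyperplanes `{x | h.1 x = h.2}` with `h ∈ H`. -/
def SeparatesFaces {V : Type*} [NormedAddCommGroup V] [NormedSpace ℝ V] (K : Set V) (o : V)
    (H : Finset ((V →L[ℝ] ℝ) × ℝ)) : Prop :=
  (∀ h ∈ H, h.1 ≠ 0) ∧
    ∀ (u : V →L[ℝ] ℝ) (x₀ : V), u ≠ 0 → x₀ ∈ K → (∀ y ∈ K, u y ≤ u x₀) →
      ∃ h ∈ H, h.1 o < h.2 ∧ ∀ x ∈ K, u x = u x₀ → h.2 < h.1 x

/-- The bounds of the theorem, in terms of the dimension `d` and of the parameter `t`: at most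
`1 + 13 d log(2d²+2d+1) 2^d e^(-t)` hyperplanes suffice, and less than `2^d` if
`t ≥ 5 + 2 log d`. -/
def FewHyperplanes {V : Type*} [NormedAddCommGroup V] [NormedSpace ℝ V] (d : ℕ) (K : Set V) (o : V)
    (t : ℝ) : Prop :=
  ∃ H : Finset ((V →L[ℝ] ℝ) × ℝ), SeparatesFaces K o H ∧
    (H.card : ℝ) ≤ 1 + 13 * d * Real.log (2 * d ^ 2 + 2 * d + 1) * 2 ^ d * Real.exp (-t) ∧
    (5 + 2 * Real.log d ≤ t → H.card < 2 ^ d)

/-- `K` is a convex body with the interior point `o`. -/
def IsBody {V : Type*} [NormedAddCommGroup V] [NormedSpace ℝ V] (K : Set V) (o : V) : Prop :=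
  Convex ℝ K ∧ IsCompact K ∧ o ∈ interior K

/-- `K` is symmetric about `o`. -/
def Symmetric {V : Type*} [AddCommGroup V] (K : Set V) (o : V) : Prop :=
  ∀ f ∈ K, o - (f - o) ∈ K

/-- `K - o ⊆ -a (K - o)`. -/
def Asymmetry {V : Type*} [AddCommGroup V] [Module ℝ V] (K : Set V) (o : V) (a : ℝ) : Prop :=
  0 < a ∧ ∀ f ∈ K, o - a⁻¹ • (f - o) ∈ K

/-- Less than `2^N` hyperplanes separate the faces of `K` from `o`. -/
def FewerThan {V : Type*} [NormedAddCommGroup V] [NormedSpace ℝ V] (N : ℕ) (K : Set V) (o : V) :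
    Prop :=
  ∃ H : Finset ((V →L[ℝ] ℝ) × ℝ), SeparatesFaces K o H ∧ H.card < 2 ^ N

theorem FewHyperplanes.mono {V : Type*} [NormedAddCommGroup V] [NormedSpace ℝ V] {d : ℕ}
    {K : Set V} {o : V} {s s' : ℝ} (h : FewHyperplanes d K o s) (hs : s' ≤ s) :
    FewHyperplanes d K o s' := by
  obtain ⟨T, h1, h2, h3⟩ := h
  refine ⟨T, h1, h2.trans ?_, fun h => h3 (h.trans hs)⟩
  have hlog : 0 ≤ Real.log (2 * (d : ℝ) ^ 2 + 2 * d + 1) := by
    apply Real.log_nonneg
    have : (0 : ℝ) ≤ d := Nat.cast_nonneg _
    nlinarith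
  gcongr

theorem norm_clm_le {n : ℕ} (U : Matrix (Fin n) (Fin n) ℝ)
    (hU : U ∈ Matrix.specialOrthogonalGroup (Fin n) ℝ) :
    ‖Matrix.toEuclideanCLM (𝕜 := ℝ) (n := Fin n) U‖ ≤ 1 := by
  have h1 := (Matrix.mem_specialOrthogonalGroup_iff.1 hU).1
  have h2 : star U * U = 1 := (Matrix.mem_orthogonalGroup_iff' (Fin n) ℝ).1 h1
  have h3 : star (Matrix.toEuclideanCLM (𝕜 := ℝ) (n := Fin n) U)
      * Matrix.toEuclideanCLM (𝕜 := ℝ) (n := Fin n) U = 1 := by
    rw [← map_star, ← map_mul, h2, map_one]
  have h4 := CStarRing.norm_star_mul_self (x := Matrix.toEuclideanCLM (𝕜 := ℝ) (n := Fin n) U)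
  rw [h3] at h4
  have h5 : ‖(1 : EuclideanSpace ℝ (Fin n) →L[ℝ] EuclideanSpace ℝ (Fin n))‖ ≤ 1 :=
    ContinuousLinearMap.norm_id_le
  nlinarith [norm_nonneg (Matrix.toEuclideanCLM (𝕜 := ℝ) (n := Fin n) U)]

/-- **Theorem.** Separation of the faces of the rotation invariant convex bodies of alternating
`k`-forms on `ℝ^n` from an interior point. -/
theorem result (k n : ℕ) (hk : 1 ≤ k) (hkn : k < n) :
    finrank ℝ (Form k n) = n.choose k ∧
    (∀ (K : Set (Form k n)) (o : Form k n), IsBody K o → RotationInvariant K o →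
      (∀ a : ℝ, Asymmetry K o a →
        FewHyperplanes (n.choose k) K o (((n : ℝ) - k) / (960 * (1 + a) ^ 2))) ∧
      (Symmetric K o → FewHyperplanes (n.choose k) K o (((n : ℝ) - k) / 3840)) ∧
      (Odd k → 4 * k ≤ n → FewHyperplanes (n.choose k) K o (((n : ℝ) - k) / 8640)) ∧
      (300000 * k ≤ n → Symmetric K o ∨ Odd k → FewerThan (n.choose k) K o)) ∧
    -- the unit ball of the comass norm
    (300000 * k ≤ n → FewerThan (n.choose k) (Metric.closedBall (0 : Form k n) 1) 0) := by
  have hfr := Q217.TN.finrank_form k n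
  have hd := Q217.TN.two_le_choose hk hkn
  have hk' : (1 : ℝ) ≤ k := by exact_mod_cast hk
  have hkn' : (k : ℝ) < n := by exact_mod_cast hkn
  have hpos : 0 ≤ (n : ℝ) - k := by linarith
  have main : ∀ (K : Set (Form k n)) (o : Form k n), IsBody K o → RotationInvariant K o →
      (∀ a : ℝ, Asymmetry K o a →
        FewHyperplanes (n.choose k) K o (((n : ℝ) - k) / (960 * (1 + a) ^ 2))) ∧
      (Symmetric K o → FewHyperplanes (n.choose k) K o (((n : ℝ) - k) / 3840)) ∧
      (Odd k → 4 * k ≤ n → FewHyperplanes (n.choose k) K o (((n : ℝ) - k) / 8640)) ∧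
      (300000 * k ≤ n → Symmetric K o ∨ Odd k → FewerThan (n.choose k) K o) := by
    rintro K o ⟨hK, hKc, ho⟩ hinv
    have key : ∀ a : ℝ, Asymmetry K o a →
        FewHyperplanes (n.choose k) K o (((n : ℝ) - k) / (960 * (1 + a) ^ 2)) := by
      rintro a ⟨ha, hKa⟩
      obtain ⟨H, h1, h2⟩ := Q156.Lie.sep_form hk hkn K o hKc ho hinv a ha hKa
      exact ⟨H, h1, h2, fun hs => Y368.Lie.strict _ hd _ _ h2 hs⟩
    have sym : Symmetric K o →
        FewHyperplanes (n.choose k) K o (((n : ℝ) - k) / 3840) := by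
      intro hs
      refine (key 1 ⟨one_pos, fun f hf => by rw [inv_one, one_smul]; exact hs f hf⟩).mono
        (le_of_eq ?_)
      norm_num
    have odd : Odd k → 4 * k ≤ n → FewHyperplanes (n.choose k) K o (((n : ℝ) - k) / 8640) := by
      intro hodd h4
      have h4' : 4 * (k : ℝ) ≤ n := by exact_mod_cast h4
      have h5 : 0 < (n : ℝ) - 2 * k := by linarith
      have h6 : (n : ℝ) / (n - 2 * k) ≤ 2 := by
        rw [div_le_iff₀ h5]
        linarith
      have h7 : 0 < (n : ℝ) / (n - 2 * k) := div_pos (by linarith) h5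
      -- the body moved to the origin
      set K0 : Set (Form k n) := {f | o + f ∈ K} with hK0
      have hK0v : Convex ℝ K0 := by
        intro x hx y hy s t hs ht hst
        have h := hK hx hy hs ht hst
        have e : s • (o + x) + t • (o + y) = o + (s • x + t • y) := by
          rw [smul_add, smul_add, add_add_add_comm, ← add_smul, hst, one_smul]
        rw [e] at h
        exact h
      have hK0i : ∀ U ∈ Matrix.specialOrthogonalGroup (Fin n) ℝ, ∀ f ∈ K0,
          Q217.TN.pull U f ∈ K0 := by
        intro U hU f hf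
        have h := hinv U hU (o + f) hf
        rw [add_sub_cancel_left] at h
        exact h
      refine (key ((n : ℝ) / (n - 2 * k)) ⟨h7, fun f hf => ?_⟩).mono ?_
      · have h := Q217.TN.almost_symm_form hodd (by omega) K0 hK0v hK0i (f - o) (by
          show o + (f - o) ∈ K
          rwa [add_sub_cancel])
        have h' : o + -(((n : ℝ) / (n - 2 * k))⁻¹ • (f - o)) ∈ K := h
        rwa [← sub_eq_add_neg] at h'
      · apply div_le_div_of_nonneg_left hpos (by positivity)
        calc 960 * (1 + (n : ℝ) / (n - 2 * k)) ^ 2 ≤ 960 * (1 + 2) ^ 2 := by gcongr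
          _ = 8640 := by norm_num
    refine ⟨key, sym, odd, ?_⟩
    intro h3 hor
    have hnum := Q217.TN.num_form hk h3
    have hfew : FewHyperplanes (n.choose k) K o (((n : ℝ) - k) / 8640) := by
      rcases hor with hs | hodd
      · refine (sym hs).mono ?_
        apply div_le_div_of_nonneg_left hpos (by norm_num) (by norm_num)
      · exact odd hodd (by omega)
    obtain ⟨H, h1, -, h4⟩ := hfew
    exact ⟨H, h1, h4 hnum⟩
  refine ⟨hfr, main, ?_⟩
  intro h3
  have hc : IsCompact (Metric.closedBall (0 : Form k n) 1) := by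
    have : ProperSpace (Form k n) := FiniteDimensional.proper_real _
    exact isCompact_closedBall _ _
  have hint : interior (Metric.closedBall (0 : Form k n) 1) = Metric.ball 0 1 :=
    interior_closedBall _ one_ne_zero
  exact (main (Metric.closedBall (0 : Form k n) 1) 0 ⟨convex_closedBall _ _, hc, by
    rw [hint]; simp⟩ (by
      intro U hU f hf
      rw [zero_add, sub_zero]
      rw [mem_closedBall_zero_iff] at hf ⊢
      have h1 := f.norm_compContinuousLinearMap_le
        (Matrix.toEuclideanCLM (𝕜 := ℝ) (n := Fin n) U)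
      have h2 := norm_clm_le U hU
      refine h1.trans ?_
      calc ‖f‖ * ‖Matrix.toEuclideanCLM (𝕜 := ℝ) (n := Fin n) U‖ ^ Fintype.card (Fin k)
          ≤ 1 * 1 ^ Fintype.card (Fin k) := by gcongr
        _ = 1 := by simp)).2.2.2 h3 (Or.inl fun f hf => by
      rw [sub_zero, zero_sub]
      rw [mem_closedBall_zero_iff] at hf ⊢
      rwa [norm_neg])

end Pool.Agent.Results.MP_5e7226_co.RotationInvariantForms
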